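import Pool.Agent.Helper11.EP.Spec

/-! # The third derivative test for exponential sums -/

set_option autoImplicit false

namespace Pool.Agent.Helper91.EP

open Finset Pool.Agent.Helper11.EP

/-- shift of a finite sum of a sequence supported in `[M, L]` -/
lemma sum_shift (a : ℤ → ℂ) (M L A B s : ℤ) (ha : ∀ n, (n < M ∨ L < n) → a n = 0)
    (hA : A + s ≤ M) (hB : L ≤ B + s) :
    ∑ k ∈ Icc A B, a (k + s) = ∑ n ∈ Icc M L, a n := by
  have h1 : ∑ k ∈ Icc A B, a (k + s) = ∑ n ∈ Icc (A + s) (B + s), a n := by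
    rw [← Finset.map_add_right_Icc, Finset.sum_map]
    rfl
  rw [h1]
  symm
  apply Finset.sum_subset
  · intro x hx
    rw [mem_Icc] at hx ⊢
    omega
  · intro x _ hx
    apply ha
    rw [mem_Icc] at hx
    omega

/-- correlations -/
noncomputable def corr (a : ℤ → ℂ) (M L : ℤ) (t : ℤ) : ℂ :=
  ∑ n ∈ Icc M L, a (n + t) * (starRingEnd ℂ) (a n)

lemma corr_neg (a : ℤ → ℂ) (M L t : ℤ) (ha : ∀ n, (n < M ∨ L < n) → a n = 0) :
    ‖corr a M L (-t)‖ = ‖corr a M L t‖ := by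
  have h1 : corr a M L (-t) = (starRingEnd ℂ) (corr a M L t) := by
    unfold corr
    rw [map_sum]
    have h2 := sum_shift (fun n => (starRingEnd ℂ) (a (n + t)) * a n) M L
      (min M (M + t)) (max L (L + t)) (-t)
      (by intro n hn; rw [ha n hn]; simp) (by omega) (by omega)
    have h3 := sum_shift (fun n => a (n + -t) * (starRingEnd ℂ) (a n)) M L
      (min M (M + t)) (max L (L + t)) 0
      (by intro n hn; rw [ha n hn]; simp) (by omega) (by omega)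
    rw [← h3]
    have h4 : ∑ x ∈ Icc M L, (starRingEnd ℂ) (a (x + t) * (starRingEnd ℂ) (a x)) =
        ∑ x ∈ Icc M L, (starRingEnd ℂ) (a (x + t)) * a x := by
      apply sum_congr rfl
      intro x _
      rw [map_mul, Complex.conj_conj]
    rw [h4, ← h2]
    apply sum_congr rfl
    intro x _
    simp only [add_zero, neg_add_cancel_right]
    ring
  rw [h1, Complex.norm_conj]

/-- the Weyl - van der Corput inequality -/
lemma wvdc (a : ℤ → ℂ) (M L : ℤ) (hML : M ≤ L) (ha : ∀ n, (n < M ∨ L < n) → a n = 0) (H : ℕ)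
    (hH : 0 < H) :
    (H : ℝ) ^ 2 * ‖∑ n ∈ Icc M L, a n‖ ^ 2 ≤
      ((L : ℝ) - M + 1 + H) * ∑ j ∈ range H, ∑ i ∈ range H, ‖corr a M L ((i : ℤ) - j)‖ := by
  set I := Icc M (L + H) with hI
  set b : ℤ → ℂ := fun k => ∑ j ∈ range H, a (k + -(j : ℤ)) with hb
  have h1 : ∑ k ∈ I, b k = (H : ℂ) * ∑ n ∈ Icc M L, a n := by
    rw [hb]
    simp only
    rw [sum_comm]
    rw [sum_congr (rfl : range H = range H) (fun (j : ℕ) (hj : j ∈ range H) =>
      sum_shift a M L M (L + H) (-(j : ℤ)) ha (by omega) (by have := mem_range.1 hj; omega))]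
    rw [sum_const, card_range, nsmul_eq_mul]
  have hcard : ((I.card : ℕ) : ℝ) = (L : ℝ) - M + 1 + H := by
    have h0 : (I.card : ℤ) = L - M + 1 + H := by
      rw [hI, Int.card_Icc]
      omega
    have : ((I.card : ℤ) : ℝ) = ((L - M + 1 + H : ℤ) : ℝ) := by rw [h0]
    push_cast at this
    exact this
  have h2 : ‖∑ k ∈ I, b k‖ ^ 2 ≤ (I.card : ℝ) * ∑ k ∈ I, ‖b k‖ ^ 2 := by
    have h3 : ‖∑ k ∈ I, b k‖ ≤ ∑ k ∈ I, ‖b k‖ := norm_sum_le _ _
    have h4 : (∑ k ∈ I, ‖b k‖) ^ 2 ≤ (I.card : ℝ) * ∑ k ∈ I, ‖b k‖ ^ 2 := sq_sum_le_card_mul_sum_sq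
    exact le_trans (pow_le_pow_left₀ (norm_nonneg _) h3 2) h4
  have h5 : ((∑ k ∈ I, ‖b k‖ ^ 2 : ℝ) : ℂ) =
      ∑ j ∈ range H, ∑ i ∈ range H, corr a M L ((i : ℤ) - j) := by
    push_cast
    have h6 : ∀ k ∈ I, ((‖b k‖ : ℂ)) ^ 2 =
        ∑ j ∈ range H, ∑ i ∈ range H, a (k + -(j : ℤ)) * (starRingEnd ℂ) (a (k + -(i : ℤ))) := by
      intro k _
      rw [← Complex.mul_conj', hb]
      simp only
      rw [map_sum, sum_mul_sum]
    rw [sum_congr rfl h6, sum_comm]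
    apply sum_congr rfl
    intro j hj
    rw [sum_comm]
    apply sum_congr rfl
    intro i hi
    have hj' := mem_range.1 hj
    have hi' := mem_range.1 hi
    unfold corr
    rw [← sum_shift (fun n => a (n + ((i : ℤ) - j)) * (starRingEnd ℂ) (a n)) M L M (L + H)
      (-(i : ℤ)) (by intro n hn; rw [ha n hn]; simp) (by omega) (by omega)]
    apply sum_congr rfl
    intro k _
    congr 2
    ring
  have h7 : ∑ k ∈ I, ‖b k‖ ^ 2 ≤ ∑ j ∈ range H, ∑ i ∈ range H, ‖corr a M L ((i : ℤ) - j)‖ := by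
    have h8 : ‖((∑ k ∈ I, ‖b k‖ ^ 2 : ℝ) : ℂ)‖ ≤
        ∑ j ∈ range H, ∑ i ∈ range H, ‖corr a M L ((i : ℤ) - j)‖ := by
      rw [h5]
      exact (norm_sum_le _ _).trans (sum_le_sum fun j _ => norm_sum_le _ _)
    rw [Complex.norm_real, Real.norm_of_nonneg (sum_nonneg fun k _ => by positivity)] at h8
    exact h8
  rw [h1, norm_mul, mul_pow, Complex.norm_natCast, hcard] at h2
  refine h2.trans (mul_le_mul_of_nonneg_left h7 ?_)
  have : (M : ℝ) ≤ L := by exact_mod_cast hML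
  have h9 : (0 : ℝ) ≤ H := by positivity
  linarith
  
/-- `∑_{i,j<H} |i-j|^{-1/2} ≤ 4 H √H` -/
lemma sum_inv_sqrt (H : ℕ) : ∑ r ∈ range (H + 1), 1 / Real.sqrt (r : ℝ) ≤ 2 * Real.sqrt H := by
  induction H with
  | zero => simp
  | succ n ih =>
    rw [sum_range_succ]
    have h1 : (0 : ℝ) ≤ n := by positivity
    have h2 : 0 < Real.sqrt ((n + 1 : ℕ) : ℝ) := Real.sqrt_pos.2 (by positivity)
    have h3 : Real.sqrt ((n + 1 : ℕ) : ℝ) ^ 2 = n + 1 := by
      rw [Real.sq_sqrt (by positivity)]; push_cast; ring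
    have h4 : Real.sqrt (n : ℝ) ^ 2 = n := Real.sq_sqrt h1
    have h5 : 0 ≤ Real.sqrt (n : ℝ) := Real.sqrt_nonneg _
    have h6 : 1 / Real.sqrt ((n + 1 : ℕ) : ℝ) ≤
        2 * (Real.sqrt ((n + 1 : ℕ) : ℝ) - Real.sqrt n) := by
      rw [div_le_iff₀ h2]
      nlinarith [sq_nonneg (Real.sqrt ((n + 1 : ℕ) : ℝ) - Real.sqrt n)]
    linarith

lemma dsum (H : ℕ) : ∑ j ∈ range H, ∑ i ∈ range H, 1 / Real.sqrt (|((i : ℤ) - j : ℤ)| : ℤ) ≤
    4 * (H : ℝ) * Real.sqrt H := by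
  induction H with
  | zero => simp
  | succ n ih =>
    have h1 : ∑ j ∈ range (n + 1), ∑ i ∈ range (n + 1),
        1 / Real.sqrt (|((i : ℤ) - j : ℤ)| : ℤ) =
        ∑ j ∈ range n, ∑ i ∈ range n, 1 / Real.sqrt (|((i : ℤ) - j : ℤ)| : ℤ) +
        2 * ∑ j ∈ range (n + 1), 1 / Real.sqrt (j : ℝ) := by
      rw [sum_range_succ]
      have h2 : ∀ j ∈ range n, ∑ i ∈ range (n + 1), 1 / Real.sqrt (|((i : ℤ) - j : ℤ)| : ℤ) =
          ∑ i ∈ range n, 1 / Real.sqrt (|((i : ℤ) - j : ℤ)| : ℤ) +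
          1 / Real.sqrt (|((n : ℤ) - j : ℤ)| : ℤ) := by
        intro j _
        rw [sum_range_succ]
      rw [sum_congr rfl h2, sum_add_distrib]
      have h3 : ∑ j ∈ range n, 1 / Real.sqrt (|((n : ℤ) - j : ℤ)| : ℤ) =
          ∑ j ∈ range (n + 1), 1 / Real.sqrt (j : ℝ) := by
        rw [← sum_range_reflect (fun j => 1 / Real.sqrt (|((n : ℤ) - j : ℤ)| : ℤ)) n,
          sum_range_succ']
        simp only [Nat.cast_zero, Real.sqrt_zero, div_zero, add_zero]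
        apply sum_congr rfl
        intro j hj
        have hj' := mem_range.1 hj
        have : |((n : ℤ) - (n - 1 - j : ℕ) : ℤ)| = ((j + 1 : ℕ) : ℤ) := by
          rw [abs_of_nonneg (by omega)]
          omega
        rw [this]
        norm_cast
      have h4 : ∑ i ∈ range (n + 1), 1 / Real.sqrt (|((i : ℤ) - n : ℤ)| : ℤ) =
          ∑ j ∈ range (n + 1), 1 / Real.sqrt (j : ℝ) := by
        rw [← sum_range_reflect (fun j => 1 / Real.sqrt (|((j : ℤ) - n : ℤ)| : ℤ)) (n + 1)]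
        apply sum_congr rfl
        intro j hj
        have hj' := mem_range.1 hj
        have : |(((n + 1 - 1 - j : ℕ) : ℤ) - n : ℤ)| = (j : ℤ) := by
          rw [abs_of_nonpos (by omega)]
          omega
        rw [this]
        norm_cast
      rw [h3, h4]
      ring
    rw [h1]
    have h2 := sum_inv_sqrt n
    have h3 : (0 : ℝ) ≤ n := by positivity
    have h4 : Real.sqrt (n : ℝ) ≤ Real.sqrt ((n + 1 : ℕ) : ℝ) := Real.sqrt_le_sqrt (by push_cast; linarith)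
    have h5 : 0 ≤ Real.sqrt (n : ℝ) := Real.sqrt_nonneg _
    have h6 : 4 * (((n + 1 : ℕ) : ℝ)) * Real.sqrt ((n + 1 : ℕ) : ℝ) =
      4 * (n : ℝ) * Real.sqrt ((n + 1 : ℕ) : ℝ) + 4 * Real.sqrt ((n + 1 : ℕ) : ℝ) := by
      push_cast; ring
    rw [h6]
    nlinarith

/-- the correlation of a positive shift is bounded by the second derivative test -/
lemma corr_bound (K : ℝ) (hK : 1 ≤ K)
    (h2 : ∀ (M L : ℕ) (f f1 f2 : ℝ → ℝ) (lam h : ℝ), M ≤ L → 0 < lam → 1 ≤ h →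
      (∀ x ∈ Set.Icc (M : ℝ) L, HasDerivWithinAt f (f1 x) (Set.Icc (M : ℝ) L) x) →
      (∀ x ∈ Set.Icc (M : ℝ) L, HasDerivWithinAt f1 (f2 x) (Set.Icc (M : ℝ) L) x) →
      (∀ x ∈ Set.Icc (M : ℝ) L, lam ≤ |f2 x| ∧ |f2 x| ≤ h * lam) →
      ‖∑ n ∈ Finset.Icc M L, e (f n)‖ ≤
        K * h * (((L : ℝ) - M + 1) * Real.sqrt lam + 1 / Real.sqrt lam))
    (M L : ℕ) (f f1 f2 f3 : ℝ → ℝ) (lam h : ℝ) (hML : M ≤ L) (hlam : 0 < lam) (hh : 1 ≤ h)
    (hf : ∀ x ∈ Set.Icc (M : ℝ) L, HasDerivWithinAt f (f1 x) (Set.Icc (M : ℝ) L) x)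
    (hf1 : ∀ x ∈ Set.Icc (M : ℝ) L, HasDerivWithinAt f1 (f2 x) (Set.Icc (M : ℝ) L) x)
    (hf2 : ∀ x ∈ Set.Icc (M : ℝ) L, HasDerivWithinAt f2 (f3 x) (Set.Icc (M : ℝ) L) x)
    (hf3 : ∀ x ∈ Set.Icc (M : ℝ) L, lam ≤ |f3 x| ∧ |f3 x| ≤ h * lam) (t : ℕ) (ht : 0 < t) :
    ‖corr (fun n : ℤ => if (M : ℤ) ≤ n ∧ n ≤ L then e (f n) else 0) M L t‖ ≤
      K * h * (((L : ℝ) - M + 1) * (Real.sqrt t * Real.sqrt lam) +
        (1 / Real.sqrt t) * (1 / Real.sqrt lam)) := by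
  have hMLr : (M : ℝ) ≤ L := by exact_mod_cast hML
  by_cases htL : L < M + t
  · have h0 : corr (fun n : ℤ => if (M : ℤ) ≤ n ∧ n ≤ L then e (f n) else 0) M L t = 0 := by
      unfold corr
      apply sum_eq_zero
      intro n hn
      rw [mem_Icc] at hn
      beta_reduce
      rw [if_neg (by omega), zero_mul]
    rw [h0, norm_zero]
    have : (0 : ℝ) ≤ (L : ℝ) - M + 1 := by linarith
    positivity
  · push Not at htL
    obtain ⟨L', hL'⟩ : ∃ L' : ℕ, L = L' + t := ⟨L - t, by omega⟩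
    have hML' : M ≤ L' := by omega
    have hLr : (L : ℝ) = L' + t := by rw [hL']; push_cast; ring
    have ht0 : (0 : ℝ) < t := by exact_mod_cast ht
    have hcorr : corr (fun n : ℤ => if (M : ℤ) ≤ n ∧ n ≤ L then e (f n) else 0) M L t =
        ∑ n ∈ Icc M L', e ((fun x => f (x + t) - f x) (n : ℝ)) := by
      unfold corr
      have h3 : ∑ n ∈ Icc M L', e ((fun x => f (x + t) - f x) (n : ℝ)) =
          ∑ n ∈ Icc (M : ℤ) L', e ((fun x => f (x + t) - f x) (n : ℝ)) := by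
        have h4 : Icc (M : ℤ) L' = (Icc M L').map Nat.castEmbedding := by
          ext x
          simp only [mem_Icc, mem_map, Nat.castEmbedding_apply]
          constructor
          · intro hx
            exact ⟨x.toNat, by omega, by omega⟩
          · rintro ⟨y, hy, rfl⟩
            omega
        rw [h4, sum_map]
        apply sum_congr rfl
        intro n _
        simp
      rw [h3]
      symm
      rw [← sum_subset (s₁ := Icc (M : ℤ) L') (s₂ := Icc (M : ℤ) L)]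
      · apply sum_congr rfl
        intro n hn
        rw [mem_Icc] at hn
        beta_reduce
        rw [if_pos (by omega), if_pos (by omega), conj_e, ← e_add]
        congr 1
        push_cast
        ring
      · intro x hx
        rw [mem_Icc] at hx ⊢
        omega
      · intro x hx0 hx
        rw [mem_Icc] at hx hx0
        beta_reduce
        rw [if_neg (by omega), zero_mul]
    rw [hcorr]
    have hsub : ∀ x ∈ Set.Icc (M : ℝ) L', x ∈ Set.Icc (M : ℝ) L := by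
      intro x hx
      exact ⟨hx.1, by rw [hLr]; linarith [hx.2]⟩
    have hsub2 : ∀ x ∈ Set.Icc (M : ℝ) L', x + t ∈ Set.Icc (M : ℝ) L := by
      intro x hx
      exact ⟨by linarith [hx.1], by rw [hLr]; linarith [hx.2]⟩
    have hder : ∀ (g g1 : ℝ → ℝ), (∀ x ∈ Set.Icc (M : ℝ) L, HasDerivWithinAt g (g1 x)
        (Set.Icc (M : ℝ) L) x) → ∀ x ∈ Set.Icc (M : ℝ) L',
        HasDerivWithinAt (fun x => g (x + t) - g x) (g1 (x + t) - g1 x) (Set.Icc (M : ℝ) L') x := by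
      intro g g1 hg x hx
      have h5 : HasDerivWithinAt (fun y => g (y + t)) (g1 (x + t) * 1) (Set.Icc (M : ℝ) L') x :=
        (hg (x + t) (hsub2 x hx)).comp x ((hasDerivWithinAt_id x _).add_const (t : ℝ))
          (fun y hy => hsub2 y hy)
      have h6 : HasDerivWithinAt g (g1 x) (Set.Icc (M : ℝ) L') x :=
        (hg x (hsub x hx)).mono (fun y hy => hsub y hy)
      rw [mul_one] at h5
      exact h5.sub h6
    have hmvt : ∀ x ∈ Set.Icc (M : ℝ) L', ∃ ξ ∈ Set.Icc (M : ℝ) L,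
        f2 (x + t) - f2 x = t * f3 ξ := by
      intro x hx
      have hx1 := hsub x hx
      have hx2 := hsub2 x hx
      obtain ⟨ξ, hξ, hξ2⟩ := exists_hasDerivAt_eq_slope f2 f3 (show x < x + t by linarith)
        (fun y hy => ((hf2 y ⟨hx1.1.trans hy.1, hy.2.trans hx2.2⟩).continuousWithinAt).mono
          (fun z hz => ⟨hx1.1.trans hz.1, hz.2.trans hx2.2⟩))
        (fun y hy => (hf2 y ⟨(hx1.1.trans_lt hy.1).le, (hy.2.trans_le hx2.2).le⟩).hasDerivAt
          (Icc_mem_nhds (hx1.1.trans_lt hy.1) (hy.2.trans_le hx2.2)))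
      refine ⟨ξ, ⟨(hx1.1.trans_lt hξ.1).le, (hξ.2.trans_le hx2.2).le⟩, ?_⟩
      rw [hξ2, add_sub_cancel_left, mul_div_cancel₀ _ ht0.ne']
    have h7 := h2 M L' (fun x => f (x + t) - f x) (fun x => f1 (x + t) - f1 x)
      (fun x => f2 (x + t) - f2 x) (t * lam) h hML' (by positivity) hh
      (hder f f1 hf) (hder f1 f2 hf1) (by
        intro x hx
        obtain ⟨ξ, hξ, hξ2⟩ := hmvt x hx
        have h8 := hf3 ξ hξ
        rw [hξ2, abs_mul, abs_of_pos ht0]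
        exact ⟨mul_le_mul_of_nonneg_left h8.1 ht0.le, by nlinarith [h8.2]⟩)
    refine h7.trans ?_
    apply mul_le_mul_of_nonneg_left _ (by positivity)
    rw [Real.sqrt_mul ht0.le]
    apply add_le_add
    · apply mul_le_mul_of_nonneg_right _ (by positivity)
      rw [hLr]
      linarith
    · rw [one_div_mul_one_div]

lemma sum_pair (H : ℕ) (N A B κ : ℝ) (w : ℕ → ℕ → ℝ) :
    ∑ j ∈ range H, ∑ i ∈ range H, ((if i = j then N else 0) + κ * (A + w j i * B)) =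
      H * N + κ * ((H : ℝ) ^ 2 * A + (∑ j ∈ range H, ∑ i ∈ range H, w j i) * B) := by
  have h10 : ∀ j ∈ range H, ∑ i ∈ range H, ((if i = j then N else 0) + κ * (A + w j i * B)) =
      N + (κ * (H * A) + κ * ((∑ i ∈ range H, w j i) * B)) := by
    intro j hj
    rw [sum_add_distrib, sum_ite_eq' (range H) j, if_pos hj, ← mul_sum, sum_add_distrib,
      sum_const, card_range, nsmul_eq_mul, ← sum_mul]
    ring
  rw [sum_congr rfl h10, sum_add_distrib, sum_add_distrib, sum_const, sum_const, card_range,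
    nsmul_eq_mul, nsmul_eq_mul, ← mul_sum, ← sum_mul]
  ring

lemma main_bound (K : ℝ) (hK : 1 ≤ K)
    (h2 : ∀ (M L : ℕ) (f f1 f2 : ℝ → ℝ) (lam h : ℝ), M ≤ L → 0 < lam → 1 ≤ h →
      (∀ x ∈ Set.Icc (M : ℝ) L, HasDerivWithinAt f (f1 x) (Set.Icc (M : ℝ) L) x) →
      (∀ x ∈ Set.Icc (M : ℝ) L, HasDerivWithinAt f1 (f2 x) (Set.Icc (M : ℝ) L) x) →
      (∀ x ∈ Set.Icc (M : ℝ) L, lam ≤ |f2 x| ∧ |f2 x| ≤ h * lam) →
      ‖∑ n ∈ Finset.Icc M L, e (f n)‖ ≤
        K * h * (((L : ℝ) - M + 1) * Real.sqrt lam + 1 / Real.sqrt lam))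
    (M L : ℕ) (f f1 f2 f3 : ℝ → ℝ) (lam h : ℝ) (hML : M ≤ L) (hlam : 0 < lam) (hh : 1 ≤ h)
    (hf : ∀ x ∈ Set.Icc (M : ℝ) L, HasDerivWithinAt f (f1 x) (Set.Icc (M : ℝ) L) x)
    (hf1 : ∀ x ∈ Set.Icc (M : ℝ) L, HasDerivWithinAt f1 (f2 x) (Set.Icc (M : ℝ) L) x)
    (hf2 : ∀ x ∈ Set.Icc (M : ℝ) L, HasDerivWithinAt f2 (f3 x) (Set.Icc (M : ℝ) L) x)
    (hf3 : ∀ x ∈ Set.Icc (M : ℝ) L, lam ≤ |f3 x| ∧ |f3 x| ≤ h * lam) (H : ℕ) (hH : 0 < H) :
    (H : ℝ) ^ 2 * ‖∑ n ∈ Finset.Icc M L, e (f n)‖ ^ 2 ≤ ((L : ℝ) - M + 1 + H) *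
      (H * ((L : ℝ) - M + 1) + K * h * ((H : ℝ) ^ 2 * (((L : ℝ) - M + 1) *
        (Real.sqrt H * Real.sqrt lam)) + 4 * H * Real.sqrt H * (1 / Real.sqrt lam))) := by
  have hMLr : (M : ℝ) ≤ L := by exact_mod_cast hML
  set a : ℤ → ℂ := fun n : ℤ => if (M : ℤ) ≤ n ∧ n ≤ L then e (f n) else 0 with ha
  have hsupp : ∀ n, (n < (M : ℤ) ∨ (L : ℤ) < n) → a n = 0 := by
    intro n hn
    rw [ha]
    simp only
    rw [if_neg (by omega)]
  have hS : ∑ n ∈ Finset.Icc M L, e (f n) = ∑ n ∈ Icc (M : ℤ) L, a n := by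
    have h4 : Icc (M : ℤ) L = (Icc M L).map Nat.castEmbedding := by
      ext x
      simp only [mem_Icc, mem_map, Nat.castEmbedding_apply]
      constructor
      · intro hx
        exact ⟨x.toNat, by omega, by omega⟩
      · rintro ⟨y, hy, rfl⟩
        omega
    rw [h4, sum_map]
    apply sum_congr rfl
    intro n hn
    rw [mem_Icc] at hn
    rw [ha]
    simp only [Nat.castEmbedding_apply]
    rw [if_pos (by omega)]
    norm_cast
  have h3 := wvdc a M L (by exact_mod_cast hML) hsupp H hH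
  rw [hS]
  have hcast : ((L : ℤ) : ℝ) - ((M : ℤ) : ℝ) + 1 + H = (L : ℝ) - M + 1 + H := by push_cast; ring
  rw [hcast] at h3
  have hH0 : (0 : ℝ) ≤ H := by positivity
  have hN0 : (0 : ℝ) ≤ (L : ℝ) - M + 1 := by linarith
  refine h3.trans (mul_le_mul_of_nonneg_left ?_ (by linarith))
  have hpair : ∀ j ∈ range H, ∀ i ∈ range H, ‖corr a M L ((i : ℤ) - j)‖ ≤
      (if i = j then ((L : ℝ) - M + 1) else 0) +
        K * h * (((L : ℝ) - M + 1) * (Real.sqrt H * Real.sqrt lam) +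
          (1 / Real.sqrt (|((i : ℤ) - j : ℤ)| : ℤ)) * (1 / Real.sqrt lam)) := by
    intro j hj i hi
    have hj' := mem_range.1 hj
    have hi' := mem_range.1 hi
    have key : ∀ t : ℕ, 0 < t → t < H → ‖corr a M L t‖ ≤
        K * h * (((L : ℝ) - M + 1) * (Real.sqrt H * Real.sqrt lam) +
          (1 / Real.sqrt t) * (1 / Real.sqrt lam)) := by
      intro t ht htH
      refine (corr_bound K hK h2 M L f f1 f2 f3 lam h hML hlam hh hf hf1 hf2 hf3 t ht).trans ?_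
      apply mul_le_mul_of_nonneg_left _ (by positivity)
      apply add_le_add _ le_rfl
      apply mul_le_mul_of_nonneg_left _ hN0
      apply mul_le_mul_of_nonneg_right _ (by positivity)
      exact Real.sqrt_le_sqrt (by exact_mod_cast htH.le)
    rcases lt_trichotomy i j with hij | hij | hij
    · rw [if_neg hij.ne, zero_add]
      have h5 := key (j - i) (by omega) (by omega)
      have h6 : ((i : ℤ) - j) = -((j - i : ℕ) : ℤ) := by omega
      have h7 : |((i : ℤ) - j)| = ((j - i : ℕ) : ℤ) := by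
        rw [h6, abs_neg, Nat.abs_cast]
      rw [h7, h6, corr_neg a M L _ hsupp]
      simpa using h5
    · subst hij
      rw [if_pos rfl]
      have h5 : ‖corr a M L ((i : ℤ) - i)‖ ≤ (L : ℝ) - M + 1 := by
        unfold corr
        refine (norm_sum_le _ _).trans ?_
        have h6 : ∀ n ∈ Icc (M : ℤ) L, ‖a (n + ((i : ℤ) - i)) * (starRingEnd ℂ) (a n)‖ ≤ 1 := by
          intro n _
          have h7 : ∀ n, ‖a n‖ ≤ 1 := by
            intro n
            rw [ha]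
            simp only
            split_ifs
            · rw [norm_e]
            · simp
          rw [norm_mul, Complex.norm_conj]
          exact mul_le_one₀ (h7 _) (norm_nonneg _) (h7 _)
        refine (sum_le_sum h6).trans ?_
        rw [sum_const, nsmul_eq_mul, mul_one, Int.card_Icc]
        have : ((((L : ℤ) + 1 - M).toNat : ℤ) : ℝ) = (((L : ℤ) + 1 - M : ℤ) : ℝ) := by
          rw [Int.toNat_of_nonneg (by omega)]
        have h8 : ((((L : ℤ) + 1 - M).toNat : ℕ) : ℝ) = (L : ℝ) + 1 - M := by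
          push_cast at this
          exact_mod_cast this
        rw [h8]
        linarith
      have h6 : 0 ≤ K * h * (((L : ℝ) - M + 1) * (Real.sqrt H * Real.sqrt lam) +
          (1 / Real.sqrt (|((i : ℤ) - i : ℤ)| : ℤ)) * (1 / Real.sqrt lam)) := by positivity
      linarith
    · rw [if_neg hij.ne', zero_add]
      have h5 := key (i - j) (by omega) (by omega)
      have h6 : ((i : ℤ) - j) = ((i - j : ℕ) : ℤ) := by omega
      rw [h6, Nat.abs_cast]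
      simpa using h5
  refine (sum_le_sum fun j hj => sum_le_sum fun i hi => hpair j hj i hi).trans ?_
  have h9 := sum_pair H ((L : ℝ) - M + 1) (((L : ℝ) - M + 1) * (Real.sqrt H * Real.sqrt lam))
    (1 / Real.sqrt lam) (K * h) (fun j i => 1 / Real.sqrt (|((i : ℤ) - j : ℤ)| : ℤ))
  rw [h9]
  apply add_le_add le_rfl
  apply mul_le_mul_of_nonneg_left _ (by positivity)
  apply add_le_add le_rfl
  exact mul_le_mul_of_nonneg_right (dsum H) (by positivity)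

theorem vdc3 (h2' : S_VDC2) : S_VDC3 := by
  obtain ⟨K₀, h2₀⟩ := h2'
  set K : ℝ := max K₀ 1 with hKdef
  have hK : 1 ≤ K := le_max_right _ _
  have h2 : ∀ (M L : ℕ) (f f1 f2 : ℝ → ℝ) (lam h : ℝ), M ≤ L → 0 < lam → 1 ≤ h →
      (∀ x ∈ Set.Icc (M : ℝ) L, HasDerivWithinAt f (f1 x) (Set.Icc (M : ℝ) L) x) →
      (∀ x ∈ Set.Icc (M : ℝ) L, HasDerivWithinAt f1 (f2 x) (Set.Icc (M : ℝ) L) x) →
      (∀ x ∈ Set.Icc (M : ℝ) L, lam ≤ |f2 x| ∧ |f2 x| ≤ h * lam) →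
      ‖∑ n ∈ Finset.Icc M L, e (f n)‖ ≤
        K * h * (((L : ℝ) - M + 1) * Real.sqrt lam + 1 / Real.sqrt lam) := by
    intro M L f f1 f2 lam h hML hlam hh hf hf1 hf2
    refine (h2₀ M L f f1 f2 lam h hML hlam hh hf hf1 hf2).trans ?_
    have hMLr : (M : ℝ) ≤ L := by exact_mod_cast hML
    have hN0 : (0 : ℝ) ≤ (L : ℝ) - M + 1 := by linarith
    apply mul_le_mul_of_nonneg_right _ (by positivity)
    exact mul_le_mul_of_nonneg_right (le_max_left _ _) (by linarith)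
  refine ⟨12 * K, ?_⟩
  intro M L f f1 f2 f3 lam h hML hlam hh hf hf1 hf2 hf3
  have hMLr : (M : ℝ) ≤ L := by exact_mod_cast hML
  set N : ℝ := (L : ℝ) - M + 1 with hN
  have hN1 : 1 ≤ N := by rw [hN]; linarith
  have hN0 : 0 < N := by linarith
  set S : ℝ := ‖∑ n ∈ Finset.Icc M L, e (f n)‖ with hS
  have hS0 : 0 ≤ S := norm_nonneg _
  have hSN : S ≤ N := by
    rw [hS]
    refine (norm_sum_le _ _).trans ?_
    rw [sum_congr rfl (fun (n : ℕ) _ => norm_e (f n))]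
    rw [sum_const, nsmul_eq_mul, mul_one, Nat.card_Icc, Nat.cast_sub (by omega), hN]
    push_cast
    linarith
  -- μ = lam^(1/6)
  obtain ⟨μ, hμ0, hμ⟩ : ∃ μ : ℝ, 0 < μ ∧ lam = μ ^ 6 := by
    refine ⟨lam ^ (1 / 6 : ℝ), Real.rpow_pos_of_pos hlam _, ?_⟩
    rw [← Real.rpow_natCast, ← Real.rpow_mul hlam.le]
    norm_num
  have hp1 : lam ^ (1 / 6 : ℝ) = μ := by
    rw [hμ, ← Real.rpow_natCast, ← Real.rpow_mul hμ0.le]
    norm_num
  have hp2 : lam ^ (-(1 / 6) : ℝ) = 1 / μ := by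
    rw [Real.rpow_neg hlam.le, hp1, one_div]
  have hp3 : N ^ (1 / 2 : ℝ) = Real.sqrt N := by rw [Real.sqrt_eq_rpow]
  rw [hp1, hp2, hp3]
  have hsN0 : 0 < Real.sqrt N := Real.sqrt_pos.2 hN0
  have hsN : Real.sqrt N ^ 2 = N := Real.sq_sqrt hN0.le
  have hKh : 1 ≤ K * h := by nlinarith
  by_cases hc1 : 1 ≤ μ
  · have h5 : N ≤ N * μ := by nlinarith
    have h6 : 0 ≤ Real.sqrt N * (1 / μ) := by positivity
    have h7 : N * μ + Real.sqrt N * (1 / μ) ≤ 12 * K * h * (N * μ + Real.sqrt N * (1 / μ)) := by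
      have : 0 ≤ N * μ + Real.sqrt N * (1 / μ) := by positivity
      nlinarith
    linarith
  push Not at hc1
  by_cases hc2 : 1 < N * μ ^ 2 
  swap
  · -- N ≤ 1/μ²
    push Not at hc2
    have h5 : Real.sqrt N * μ ≤ 1 := by
      have h51 : (Real.sqrt N * μ) ^ 2 ≤ 1 := by rw [mul_pow, hsN]; exact hc2
      nlinarith [mul_pos hsN0 hμ0]
    have h6 : N ≤ Real.sqrt N * (1 / μ) := by
      rw [mul_one_div, le_div_iff₀ hμ0]
      nlinarith
    have h6' : 0 ≤ N * μ := by positivity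
    have h7 : N * μ + Real.sqrt N * (1 / μ) ≤ 12 * K * h * (N * μ + Real.sqrt N * (1 / μ)) := by
      have : 0 ≤ N * μ + Real.sqrt N * (1 / μ) := by positivity
      nlinarith
    linarith
  -- main case
  set H : ℕ := ⌊1 / μ ^ 2⌋₊ with hH
  have hinv : 1 < 1 / μ ^ 2 := by
    rw [lt_div_iff₀ (by positivity)]
    nlinarith
  have hH1 : 1 ≤ H := by
    rw [hH]
    exact Nat.le_floor (by push_cast; linarith)
  have hH1r : (1 : ℝ) ≤ H := by exact_mod_cast hH1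
  have hHle : (H : ℝ) ≤ 1 / μ ^ 2 := Nat.floor_le (by positivity)
  have hHlt : 1 / μ ^ 2 < (H : ℝ) + 1 := Nat.lt_floor_add_one _
  have hHμ : (H : ℝ) * μ ^ 2 ≤ 1 := by
    rwa [le_div_iff₀ (by positivity)] at hHle
  have hHμ2 : 1 ≤ 2 * ((H : ℝ) * μ ^ 2) := by
    have : 1 < ((H : ℝ) + 1) * μ ^ 2 := by rwa [div_lt_iff₀ (by positivity)] at hHlt
    nlinarith [sq_nonneg μ]
  have hHN : (H : ℝ) ≤ N := by
    have : (H : ℝ) * μ ^ 2 ≤ N * μ ^ 2 := by linarith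
    exact le_of_mul_le_mul_right this (by positivity)
  have hb := main_bound K hK h2 M L f f1 f2 f3 lam h hML hlam hh hf hf1 hf2 hf3 H hH1
  rw [← hN, ← hS] at hb
  have hsl : Real.sqrt lam = μ ^ 3 := by
    rw [hμ, show μ ^ 6 = (μ ^ 3) ^ 2 by ring]
    exact Real.sqrt_sq (by positivity)
  set q : ℝ := Real.sqrt H with hq
  have hq0 : 0 < q := Real.sqrt_pos.2 (by linarith)
  have hq2 : q ^ 2 = H := Real.sq_sqrt (by linarith)
  rw [hsl] at hb
  -- q μ ≤ 1 and 2 q μ ≥ 1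
  have hqμ : q * μ ≤ 1 := by
    have : (q * μ) ^ 2 ≤ 1 := by rw [mul_pow, hq2]; exact hHμ
    exact (sq_le_one_iff₀ (mul_pos hq0 hμ0).le).1 this
  have hqμ2 : 1 ≤ 2 * (q * μ) := by
    have h51 : 1 ≤ 2 * (q * μ) ^ 2 := by rw [mul_pow, hq2]; exact hHμ2
    by_contra hcon
    push Not at hcon
    have h52 : 0 < q * μ := mul_pos hq0 hμ0
    have h53 : (q * μ) * (q * μ) ≤ (q * μ) * 1 := mul_le_mul_of_nonneg_left hqμ h52.le
    have h54 : (q * μ) ^ 2 = (q * μ) * (q * μ) := sq _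
    rw [h54] at h51
    linarith
  rw [← hq2] at hb hHN
  -- divide by q^4
  have hb2 : S ^ 2 ≤ (N + q ^ 2) * (N / q ^ 2 + K * h * (N * (q * μ ^ 3) + 4 / (q * μ ^ 3))) := by
    have h8 : (q ^ 2) ^ 2 * S ^ 2 ≤ (q ^ 2) ^ 2 *
        ((N + q ^ 2) * (N / q ^ 2 + K * h * (N * (q * μ ^ 3) + 4 / (q * μ ^ 3)))) := by
      refine hb.trans (le_of_eq ?_)
      field_simp
    exact le_of_mul_le_mul_left h8 (by positivity)
  have h9 : N / q ^ 2 ≤ N * (4 * μ ^ 2) := by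
    rw [div_le_iff₀ (by positivity)]
    have h91 : 1 ≤ 4 * (q * μ) ^ 2 := by
      have h92 : (1 : ℝ) ^ 2 ≤ (2 * (q * μ)) ^ 2 := pow_le_pow_left₀ zero_le_one hqμ2 2
      calc (1 : ℝ) = 1 ^ 2 := by norm_num
        _ ≤ (2 * (q * μ)) ^ 2 := h92
        _ = 4 * (q * μ) ^ 2 := by ring
    calc N = N * 1 := (mul_one N).symm
      _ ≤ N * (4 * (q * μ) ^ 2) := mul_le_mul_of_nonneg_left h91 hN0.le
      _ = N * (4 * μ ^ 2) * q ^ 2 := by ring
  have h10 : N * (q * μ ^ 3) ≤ N * μ ^ 2 := by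
    apply mul_le_mul_of_nonneg_left _ hN0.le
    calc q * μ ^ 3 = (q * μ) * μ ^ 2 := by ring
      _ ≤ 1 * μ ^ 2 := mul_le_mul_of_nonneg_right hqμ (sq_nonneg μ)
      _ = μ ^ 2 := one_mul _
  have h11 : 4 / (q * μ ^ 3) ≤ 8 / μ ^ 2 := by
    rw [div_le_div_iff₀ (by positivity) (by positivity)]
    calc 4 * μ ^ 2 = (4 * μ ^ 2) * 1 := (mul_one _).symm
      _ ≤ (4 * μ ^ 2) * (2 * (q * μ)) := mul_le_mul_of_nonneg_left hqμ2 (by positivity)
      _ = 8 * (q * μ ^ 3) := by ring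
  have h12 : S ^ 2 ≤ (2 * N) * (N * (4 * μ ^ 2) + K * h * (N * μ ^ 2 + 8 / μ ^ 2)) := by
    refine hb2.trans ?_
    apply mul_le_mul (by linarith) _ (by positivity) (by positivity)
    apply add_le_add h9
    apply mul_le_mul_of_nonneg_left _ (by positivity)
    exact add_le_add h10 h11
  have h13 : S ^ 2 ≤ (12 * K * h * (N * μ + Real.sqrt N * (1 / μ))) ^ 2 := by
    refine h12.trans ?_
    have e1 : (12 * K * h * (N * μ + Real.sqrt N * (1 / μ))) ^ 2 =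
        144 * (K * h) ^ 2 * (N ^ 2 * μ ^ 2 + 2 * (N * Real.sqrt N) + N * (1 / μ ^ 2)) := by
      have : (Real.sqrt N * (1 / μ)) ^ 2 = N * (1 / μ ^ 2) := by
        rw [mul_pow, hsN]; ring
      have h14 : (N * μ + Real.sqrt N * (1 / μ)) ^ 2 =
          N ^ 2 * μ ^ 2 + 2 * (N * Real.sqrt N) * (μ * (1 / μ)) + (Real.sqrt N * (1 / μ)) ^ 2 := by
        ring
      rw [this, mul_one_div_cancel hμ0.ne', mul_one] at h14
      rw [mul_pow, h14]
      ring
    have e2 : (2 * N) * (N * (4 * μ ^ 2) + K * h * (N * μ ^ 2 + 8 / μ ^ 2)) =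
        8 * (N ^ 2 * μ ^ 2) + 2 * (K * h) * (N ^ 2 * μ ^ 2) + 16 * (K * h) * (N * (1 / μ ^ 2)) := by
      ring
    rw [e1, e2]
    have p1 : 0 ≤ N ^ 2 * μ ^ 2 := by positivity
    have p2 : 0 ≤ N * (1 / μ ^ 2) := by positivity
    have p3 : 0 ≤ N * Real.sqrt N := by positivity
    have p4 : K * h ≤ (K * h) ^ 2 := le_self_pow₀ hKh two_ne_zero
    have p5 : 1 ≤ (K * h) ^ 2 := hKh.trans p4
    have p6 : (K * h) * (N ^ 2 * μ ^ 2) ≤ (K * h) ^ 2 * (N ^ 2 * μ ^ 2) :=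
      mul_le_mul_of_nonneg_right p4 p1
    have p7 : (K * h) * (N * (1 / μ ^ 2)) ≤ (K * h) ^ 2 * (N * (1 / μ ^ 2)) :=
      mul_le_mul_of_nonneg_right p4 p2
    have p8 : (N ^ 2 * μ ^ 2) ≤ (K * h) ^ 2 * (N ^ 2 * μ ^ 2) := le_mul_of_one_le_left p1 p5
    have p9 : 0 ≤ (K * h) ^ 2 * (N * Real.sqrt N) := by positivity
    have p10 : (N * (1 / μ ^ 2)) ≤ (K * h) ^ 2 * (N * (1 / μ ^ 2)) := le_mul_of_one_le_left p2 p5
    have p11 : 144 * (K * h) ^ 2 * (N ^ 2 * μ ^ 2 + 2 * (N * Real.sqrt N) + N * (1 / μ ^ 2)) =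
      144 * ((K * h) ^ 2 * (N ^ 2 * μ ^ 2)) + 288 * ((K * h) ^ 2 * (N * Real.sqrt N)) +
        144 * ((K * h) ^ 2 * (N * (1 / μ ^ 2))) := by ring
    rw [p11, mul_assoc 2 (K * h), mul_assoc 16 (K * h)]
    linarith
  have h15 : 0 ≤ 12 * K * h * (N * μ + Real.sqrt N * (1 / μ)) := by positivity
  exact (abs_le_of_sq_le_sq' h13 h15).2 

end Pool.Agent.Helper91.EP
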